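import Pool.Agent.N276.BE.Stm
import Pool.Agent.N276.BE.QTail
import Pool.Agent.N276.BE.QMom
import Pool.Agent.N276.BE.QWald
import Pool.Agent.N276.BE.QMart
import Pool.Agent.N276.BE.Meas
import Pool.Agent.N276.BE.Mix
import Pool.Agent.N276.BE.Mean
import Pool.Agent.N276.BE.M2
import Pool.Agent.N276.BE.D2
import Pool.Agent.N276.BE.Cross
import Pool.Agent.N276.BE.Mom
import Pool.Agent.N276.BE.Tail
import Pool.Agent.N276.BE.Lyap
import Pool.Agent.N276.BE.Test
import Pool.Agent.N276.BE.Spread
import Pool.Agent.N276.BE.Up
import Pool.Agent.N276.BE.Markov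
import Pool.Agent.N276.BE.Push
import Pool.Agent.N276.BE.ChainLow
import Pool.Agent.N276.BE.ChainUp
import Pool.Agent.N276.BE.Die
import Pool.Agent.N276.BE.Good
import Pool.Agent.N276.BE.PathLow
import Pool.Agent.N276.BE.PathUp
import Pool.Agent.N276.BE.Law
import Pool.Agent.N276.BE.Transfer
import Pool.Agent.N276.BE.Nonneg
import Pool.Agent.N276.BE.Low
import Pool.Agent.N276.BE.High

/-!
# MP_7ca543_pr, Q1: the speed of excited random walk with non-negative cookie drifts

For independent identically distributed stacks of cookies with non-negative drifts (POS), weakly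
elliptic (WEL), the speed `v` of the excited random walk on `ℤ` is `0` if `δ ≤ 2` and positive if
`δ > 2`. The stacks may be unbounded and `δ` may be infinite.

The law `lam` of a stack is a probability measure on sequences `η : ℕ → ℝ`; `η i` is the probability
of a step to the right at the `(i+1)`-st visit to the site. The definitions of `POS`, `delta` and
`IsERWIID` are in `Pool.Agent.N276.BE.Def`, that of `stepProb` is in `Pool.Agent.N276.ER.Def`.
-/

set_option autoImplicit false

open MeasureTheory ProbabilityTheory Filter Topology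
open scoped ENNReal

namespace Pool.Agent.Results.MP_7ca543_pr.BallisticityNonnegativeDrifts

open Pool.Agent.N276.BE

/-- Let the stacks of cookies be independent with law `lam`, satisfying (POS) and (WEL). The excited
random walk exists, and its speed `v` satisfies `v = 0` if `δ ≤ 2` and `v > 0` if `δ > 2`. -/
theorem result.{u} (lam : Measure (ℕ → ℝ)) [hlam : IsProbabilityMeasure lam] (hpos : POS lam)
    (hwel : 0 < lam {η | ∀ i, η i < 1}) :
    (∃ (Ω : Type) (_ : MeasurableSpace Ω) (P : Measure Ω) (X : ℕ → Ω → ℤ), IsERWIID lam P X) ∧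
    ∀ (Ω : Type u) (_ : MeasurableSpace Ω) (P : Measure Ω) (X : ℕ → Ω → ℤ), IsERWIID lam P X →
      ∀ v : ℝ, (∀ᵐ ω ∂P, Tendsto (fun n : ℕ => (X n ω : ℝ) / n) atTop (𝓝 v)) →
        (delta lam ≤ 2 → v = 0) ∧ (2 < delta lam → 0 < v) := by
  have hqm : StmQMom := qmom qtail
  have hqw : StmQWald := qwald qtail hqm
  have hqt : StmQMart := qmart qtail hqm hqw
  have hmix : StmMix := mix meas
  have hmean : StmMean := mean meas hmix qtail hqm hqw
  have hm2 : StmM2 := m2 meas hmix qtail hqm hqw hqt
  have hd2 : StmD2 := d2 meas hmix qtail hqm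
  have hcr : StmCross := cross meas hmix qtail hqm hqt hm2
  have hmom : StmMom := mom meas hmix hmean hm2 hd2 hcr
  have htail : StmTail := tail meas hmix qtail hqm
  have hlyap : StmLyap := lyap hmean hmom
  have htest : StmTest := test meas hmix hmean hmom htail hlyap
  have hspread : StmSpread := spread meas hmix
  have hup : StmUp := up meas hmix qtail hqm hmean hm2
  have hpush : StmPush := push meas hmix
  have hlow : StmChainLow := chainLow meas hmix markov htest hspread
  have hhigh : StmChainUp := chainUp meas hmix markov hmean hup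
  have hdie : StmDie := die meas hmix markov hmean
  have hgood : StmGood := good meas hmix hqm hpush
  have hlaw : StmLaw := law meas hmix
  have h1 : StmLow := low meas hmix hpush hgood hlow pathLow
  have h2 : StmHigh := high meas hmix hpush hgood hhigh hdie pathUp
  have h0 : StmNonneg := nonneg hmix hlaw
  refine ⟨⟨_, _, _, _, hlaw lam hlam hpos⟩, fun Ω mΩ P X hX v hv => ?_⟩
  have hv' := transfer lam v Ω mΩ P X _ _ _ _ hX (hlaw lam hlam hpos) hv
  have hv0 := h0 lam hlam hpos v hv'
  refine ⟨fun hd => le_antisymm (h1 lam hlam hpos hwel hd v hv') hv0, fun hd => ?_⟩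
  refine lt_of_le_of_ne hv0 fun e => ?_
  subst e
  exact h2 lam hlam hpos hd hv'

end Pool.Agent.Results.MP_7ca543_pr.BallisticityNonnegativeDrifts
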